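import Pool.Agent.Y112.KN.Op

/-!
# Dual homogeneous bases and products of powers (job KN-K3)
-/

set_option autoImplicit false

open CategoryTheory AlgebraicGeometry

namespace Pool.Agent.Y112.KN.Bas

universe u v w

open Pool.Agent.H914 VarClass Obj Pool.Agent.Y150.KN Pool.Agent.Y112.KN.Op

variable {k : Type u} [Field k] {𝒱 : VarClass k} {ops : CycleOps 𝒱} (W : Coh.{u, v} ops)

/-- a homogeneous basis -/
lemma exists_basis (X : 𝒱.Obj) : ∃ (n : ℕ) (e : Module.Basis (Fin n) W.K (W.H X)),
    ∀ i, ∃ l, e i ∈ W.gr X l := by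
  classical
  let b : ∀ i, Module.Basis (Fin (Module.finrank W.K (W.gr X i))) W.K (W.gr X i) :=
    fun i => Module.finBasis W.K (W.gr X i)
  let e := (W.isInternal X).collectedBasis b
  have : Finite (Σ i, Fin (Module.finrank W.K (W.gr X i))) := Module.Finite.finite_basis e
  have := Fintype.ofFinite (Σ i, Fin (Module.finrank W.K (W.gr X i)))
  refine ⟨Fintype.card _, e.reindex (Fintype.equivFin _), fun i => ?_⟩
  rw [Module.Basis.reindex_apply]
  exact ⟨_, (W.isInternal X).collectedBasis_mem b _⟩

/-- the flipped Poincare pairing -/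
noncomputable def pair (X : 𝒱.Obj) : LinearMap.BilinForm W.K (W.H X) :=
  LinearMap.mk₂ W.K (fun x y => W.tr X (y * x))
    (fun a b c => by rw [mul_add, map_add])
    (fun r a b => by rw [mul_smul_comm, map_smul])
    (fun a b c => by rw [add_mul, map_add])
    (fun r a b => by rw [smul_mul_assoc, map_smul])

lemma pair_apply (X : 𝒱.Obj) (x y : W.H X) : pair W X x y = W.tr X (y * x) := rfl

lemma pair_nondeg (X : 𝒱.Obj) : (pair W X).Nondegenerate :=
  ⟨fun _ h => nondeg_right W fun b => h b, fun y h => W.nondeg y fun b => h b⟩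

theorem bas : S_bas.{u, v} := by
  intro k _ 𝒱 ops W X
  obtain ⟨n, e, he⟩ := exists_basis W X
  let e' := (pair W X).dualBasis (pair_nondeg W X) e
  have hd : ∀ i j, W.tr X (e i * e' j) = if i = j then 1 else 0 := fun i j =>
    LinearMap.BilinForm.apply_dualBasis_left (pair_nondeg W X) e j i
  refine ⟨n, e, e', hd, fun i => ?_⟩
  obtain ⟨l, hl⟩ := he i
  have hl2 : l ≤ 2 * X.dim := by
    by_contra h
    rw [W.gr_eq_bot X l (by omega), Submodule.mem_bot] at hl
    exact e.ne_zero i hl
  refine ⟨l, hl2, hl, ?_⟩
  apply mem_of_comp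
  intro m hm
  apply nondeg_right W
  intro x
  -- linear in `x`: check on the basis
  have hlin : (W.tr X ∘ₗ LinearMap.mulRight W.K (comp W X m (e' i))) = 0 := by
    apply e.ext
    intro j
    obtain ⟨l', hl'⟩ := he j
    change W.tr X (e j * comp W X m (e' i)) = 0
    by_cases hmm : m + l' = 2 * X.dim
    · rw [tr_comp' W hmm _ hl', hd, if_neg]
      rintro rfl
      have : l = l' := by
        by_contra hne
        have h1 := comp_ne W hl hne
        rw [comp_same W hl'] at h1
        exact e.ne_zero _ h1
      omega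
    · exact W.tr_eq_zero (W.mul_mem hl' (comp_mem W m _)) (by omega)
  exact LinearMap.congr_fun hlin x

lemma prod_append {X P Q : 𝒱.Obj} {m n : ℕ} (pr : Fin m → (P ⟶ X)) (qr : Fin n → (Q ⟶ X))
    (a : Fin (m + n) → W.H X) :
    (List.ofFn fun i => W.map
      (Fin.append (fun i => fst P Q ≫ pr i) (fun i => snd P Q ≫ qr i) i) (a i)).prod =
      W.map (fst P Q) (List.ofFn fun i => W.map (pr i) (a (Fin.castAdd n i))).prod *
        W.map (snd P Q) (List.ofFn fun i => W.map (qr i) (a (Fin.natAdd m i))).prod := by
  rw [List.ofFn_add, List.prod_append, map_list_prod, List.map_ofFn, map_list_prod, List.map_ofFn]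
  congr 3
  · funext i
    have h := Fin.append_left (fun i => fst P Q ≫ pr i) (fun i => snd P Q ≫ qr i) i
    change W.map (Fin.append (fun i => fst P Q ≫ pr i) (fun i => snd P Q ≫ qr i)
      (Fin.castAdd n i)) (a (Fin.castAdd n i)) = _
    rw [h, W.map_comp]
    rfl
  · funext i
    have h := Fin.append_right (fun i => fst P Q ≫ pr i) (fun i => snd P Q ≫ qr i) i
    rw [h, W.map_comp]
    rfl

theorem pwprod : S_pwprod.{u, v} := by
  intro k _ 𝒱 ops W X P Q m n pr qr hP hQ
  refine ⟨?_, ?_, ?_, ?_⟩
  · intro a
    rw [prod_append, W.tr_prod, hP.tr_prod, hQ.tr_prod, Fin.prod_univ_add]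
  · rw [Submodule.eq_top_iff']
    intro x
    refine W.kunneth_induction (p := fun x => x ∈ _) ?_ ?_ x
    · intro a b ha hb
      exact Submodule.add_mem _ ha hb
    · intro _ _ a ha0 b hb0
      clear ha0 hb0
      have ha : a ∈ Submodule.span W.K
          {x | ∃ a : Fin m → W.H X, x = (List.ofFn fun i => W.map (pr i) (a i)).prod} := by
        rw [hP.span]; trivial
      have hb : b ∈ Submodule.span W.K
          {x | ∃ a : Fin n → W.H X, x = (List.ofFn fun i => W.map (qr i) (a i)).prod} := by
        rw [hQ.span]; trivial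
      induction ha using Submodule.span_induction with
      | mem a ha =>
        obtain ⟨c, rfl⟩ := ha
        induction hb using Submodule.span_induction with
        | mem b hb =>
          obtain ⟨d, rfl⟩ := hb
          refine Submodule.subset_span ⟨Fin.append c d, ?_⟩
          rw [prod_append]
          simp only [Fin.append_left, Fin.append_right]
        | zero => rw [map_zero, mul_zero]; exact Submodule.zero_mem _
        | add b c _ _ hb hc => rw [map_add, mul_add]; exact Submodule.add_mem _ hb hc
        | smul r b _ hb => rw [map_smul, mul_smul_comm]; exact Submodule.smul_mem _ _ hb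
      | zero => rw [map_zero, zero_mul]; exact Submodule.zero_mem _
      | add b c _ _ hb hc => rw [map_add, add_mul]; exact Submodule.add_mem _ hb hc
      | smul r b _ hb => rw [map_smul, smul_mul_assoc]; exact Submodule.smul_mem _ _ hb
  · intro Y f
    obtain ⟨F, hF⟩ := hP.exists_map Y fun i => f (Fin.castAdd n i)
    obtain ⟨G, hG⟩ := hQ.exists_map Y fun i => f (Fin.natAdd m i)
    refine ⟨Obj.lift F G, fun i => ?_⟩
    refine Fin.addCases (fun i => ?_) (fun i => ?_) i
    · rw [Fin.append_left, ← Category.assoc, Obj.lift_fst, hF]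
    · rw [Fin.append_right, ← Category.assoc, Obj.lift_snd, hG]
  · rw [dim_prod, hP.dim, hQ.dim, add_mul]

end Pool.Agent.Y112.KN.Bas
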