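import Pool.Agent.Y150.KN.Stm

/-!
# Galois descent for subspaces (job KN-F)
-/

set_option autoImplicit false

namespace Pool.Agent.Y112.KN.Gal

universe v

open Algebra

theorem main : Pool.Agent.Y150.KN.S_gal.{v} := by
  intro K _ _ n F hF
  apply le_antisymm
  · intro x hx
    -- a finite Galois extension containing the coordinates
    let L := AlgebraicClosure K
    have : IsGalois K L := inferInstance
    let E := FiniteGaloisIntermediateField.adjoin K (Set.range x)
    have hmem : ∀ j, x j ∈ E.toIntermediateField := fun j =>
      FiniteGaloisIntermediateField.subset_adjoin K (Set.range x) ⟨j, rfl⟩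
    let x₀ : Fin n → E := fun j => ⟨x j, hmem j⟩
    have hx₀ : ∀ j, algebraMap E L (x₀ j) = x j := fun j => rfl
    let b := Module.finBasis K E
    let b' := b.traceDual
    -- the rational vectors
    let y : Fin (Module.finrank K E) → Fin n → K := fun i j => trace K E (b i * x₀ j)
    have hy : ∀ i, (fun j => algebraMap K L (y i j)) ∈ F := by
      intro i
      have h1 : (fun j => algebraMap K L (y i j)) =
          ∑ σ : E ≃ₐ[K] E, fun j => (σ.liftNormal L) ((algebraMap E L (b i) • x) j) := by
        funext j
        rw [Finset.sum_apply]
        have h2 : algebraMap K L (y i j) = algebraMap E L (algebraMap K E (y i j)) :=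
          IsScalarTower.algebraMap_apply K E L _
        rw [h2, show y i j = trace K E (b i * x₀ j) from rfl, trace_eq_sum_automorphisms, map_sum]
        refine Finset.sum_congr rfl fun σ _ => ?_
        rw [← AlgEquiv.liftNormal_commutes]
        congr 1
      rw [h1]
      refine Submodule.sum_mem _ fun σ _ => ?_
      exact hF _ _ (F.smul_mem _ hx)
    have hxs : x = ∑ i, algebraMap E L (b' i) • fun j => algebraMap K L (y i j) := by
      funext j
      rw [Finset.sum_apply]
      have h3 : x₀ j = ∑ i, (y i j) • b' i := by
        refine (b'.sum_repr (x₀ j)).symm.trans (Finset.sum_congr rfl fun i _ => ?_)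
        congr 1
        rw [Module.Basis.traceDual_repr_apply, traceForm_apply, mul_comm]
      rw [← hx₀ j, h3, map_sum]
      refine Finset.sum_congr rfl fun i _ => ?_
      rw [Algebra.smul_def, map_mul, Pi.smul_apply, smul_eq_mul, mul_comm,
        IsScalarTower.algebraMap_apply K E L]
    rw [hxs]
    refine Submodule.sum_mem _ fun i _ => Submodule.smul_mem _ _ (Submodule.subset_span ?_)
    exact ⟨hy i, y i, rfl⟩
  · rw [Submodule.span_le]
    rintro x ⟨hx, -⟩
    exact hx

end Pool.Agent.Y112.KN.Gal
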