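import Pool.Agent.Y150.KN.Stm4

/-!
# Classes on `X × X` and operators (job KN-K1)
-/

set_option autoImplicit false

open CategoryTheory AlgebraicGeometry

namespace Pool.Agent.Y112.KN.Op

universe u v w

open Pool.Agent.H914 VarClass Obj Pool.Agent.Y150.KN

variable {k : Type u} [Field k] {𝒱 : VarClass k} {ops : CycleOps 𝒱} (W : Coh.{u, v} ops)

lemma tr_op {X : 𝒱.Obj} (γ : W.H (X.prod X)) (x y : W.H X) :
    W.tr X (op W γ x * y) =
      W.tr (X.prod X) (γ * (W.map (snd X X) x * W.map (fst X X) y)) := by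
  rw [op_apply, W.tr_push, mul_assoc]

/-- right nondegeneracy -/
lemma nondeg_right {X : 𝒱.Obj} {a : W.H X} (h : ∀ b, W.tr X (b * a) = 0) : a = 0 := by
  apply W.nondeg
  intro b
  refine W.gr_induction (p := fun b => W.tr X (a * b) = 0) ?_ ?_ b
  · intro i b hb
    have h1 := W.tr_rot hb a
    rw [h b] at h1
    have h2 : (-1 : W.K) ^ i ≠ 0 := pow_ne_zero _ (neg_ne_zero.2 one_ne_zero)
    exact (mul_eq_zero.1 h1.symm).resolve_left h2
  · intro b b' hb hb'
    rw [mul_add, map_add, hb, hb', add_zero]

lemma op_inj {X : 𝒱.Obj} {γ γ' : W.H (X.prod X)} (h : op W γ = op W γ') : γ = γ' := by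
  apply W.tr_ext
  intro c
  refine W.kunneth_induction (p := fun c => W.tr _ (γ * c) = W.tr _ (γ' * c)) ?_ ?_ c
  · intro a b ha hb
    rw [mul_add, mul_add, map_add, map_add, ha, hb]
  · intro i j a ha b hb
    rw [W.comm (W.map_mem _ ha) (W.map_mem _ hb), mul_smul_comm, mul_smul_comm, map_smul, map_smul,
      ← tr_op, ← tr_op, h]

/-- `op` as a linear map -/
noncomputable def opL (X : 𝒱.Obj) : W.H (X.prod X) →ₗ[W.K] Module.End W.K (W.H X) where
  toFun γ := op W γ
  map_add' γ γ' := by
    ext x
    rw [LinearMap.add_apply, op_apply, op_apply, op_apply, add_mul, map_add]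
  map_smul' c γ := by
    ext x
    rw [LinearMap.smul_apply, op_apply, op_apply, smul_mul_assoc, map_smul, RingHom.id_apply]

theorem op1 : S_op1.{u, v} := by
  intro k _ 𝒱 ops W X
  have hinj : Function.Injective (opL W X) := fun γ γ' h => op_inj W h
  refine ⟨hinj, ?_⟩
  have e := LinearEquiv.ofBijective _ (W.kunneth X X)
  have h1 := e.finrank_eq
  rw [Module.finrank_tensorProduct] at h1
  have h2 : Module.finrank W.K (Module.End W.K (W.H X)) =
      Module.finrank W.K (W.H X) * Module.finrank W.K (W.H X) :=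
    Module.finrank_linearMap W.K W.K (W.H X) (W.H X)
  exact (LinearMap.injective_iff_surjective_of_finrank_eq_finrank (h1.symm.trans h2.symm)).1 hinj

/-- the homogeneous component of index `m` -/
noncomputable def comp (X : 𝒱.Obj) (m : ℕ) (a : W.H X) : W.H X :=
  let _ := (W.isInternal X).chooseDecomposition
  (DirectSum.decompose (W.gr X) a m : W.H X)

lemma comp_mem {X : 𝒱.Obj} (m : ℕ) (a : W.H X) : comp W X m a ∈ W.gr X m := by
  let _ := (W.isInternal X).chooseDecomposition
  exact (DirectSum.decompose (W.gr X) a m).2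

lemma comp_add {X : 𝒱.Obj} (m : ℕ) (a b : W.H X) :
    comp W X m (a + b) = comp W X m a + comp W X m b := by
  let _ := (W.isInternal X).chooseDecomposition
  change ((DirectSum.decompose (W.gr X) (a + b) m : W.gr X m) : W.H X) =
    ((DirectSum.decompose (W.gr X) a m : W.gr X m) : W.H X) +
    ((DirectSum.decompose (W.gr X) b m : W.gr X m) : W.H X)
  rw [DirectSum.decompose_add]
  rfl

lemma comp_same {X : 𝒱.Obj} {m : ℕ} {a : W.H X} (ha : a ∈ W.gr X m) : comp W X m a = a := by
  let _ := (W.isInternal X).chooseDecomposition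
  exact DirectSum.decompose_of_mem_same (W.gr X) ha

lemma comp_ne {X : 𝒱.Obj} {m n : ℕ} {a : W.H X} (ha : a ∈ W.gr X m) (h : m ≠ n) :
    comp W X n a = 0 := by
  let _ := (W.isInternal X).chooseDecomposition
  exact DirectSum.decompose_of_mem_ne (W.gr X) ha h

/-- an element all of whose components but one vanish is homogeneous -/
lemma mem_of_comp {X : 𝒱.Obj} {m : ℕ} {a : W.H X} (h : ∀ n, n ≠ m → comp W X n a = 0) :
    a ∈ W.gr X m := by
  classical
  let _ := (W.isInternal X).chooseDecomposition
  rw [← DirectSum.sum_support_decompose (W.gr X) a]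
  refine Submodule.sum_mem _ fun i _ => ?_
  by_cases hi : i = m
  · subst hi
    exact (DirectSum.decompose (W.gr X) a i).2
  · have := h i hi
    change ((DirectSum.decompose (W.gr X) a i : W.gr X i) : W.H X) = 0 at this
    rw [this]
    exact Submodule.zero_mem _

/-- the trace against homogeneous elements sees only one component -/
lemma tr_comp {X : 𝒱.Obj} {m n : ℕ} (hmn : m + n = 2 * X.dim) (a : W.H X) {c : W.H X}
    (hc : c ∈ W.gr X n) : W.tr X (comp W X m a * c) = W.tr X (a * c) := by
  refine W.gr_induction (p := fun a => W.tr X (comp W X m a * c) = W.tr X (a * c)) ?_ ?_ a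
  · intro i a ha
    by_cases hi : i = m
    · subst hi
      rw [comp_same W ha]
    · rw [comp_ne W ha hi, zero_mul, map_zero, W.tr_eq_zero (W.mul_mem ha hc) (by omega)]
  · intro a b ha hb
    rw [comp_add, add_mul, add_mul, map_add, map_add, ha, hb]

/-- the trace against homogeneous elements sees only one component -/
lemma tr_comp' {X : 𝒱.Obj} {m n : ℕ} (hmn : m + n = 2 * X.dim) (a : W.H X) {c : W.H X}
    (hc : c ∈ W.gr X n) : W.tr X (c * comp W X m a) = W.tr X (c * a) := by
  refine W.gr_induction (p := fun a => W.tr X (c * comp W X m a) = W.tr X (c * a)) ?_ ?_ a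
  · intro i a ha
    by_cases hi : i = m
    · subst hi
      rw [comp_same W ha]
    · rw [comp_ne W ha hi, mul_zero, map_zero, W.tr_eq_zero (W.mul_mem hc ha) (by omega)]
  · intro a b ha hb
    rw [comp_add, mul_add, mul_add, map_add, map_add, ha, hb]

theorem op2 : S_op2.{u, v} := by
  intro k _ 𝒱 ops W X γ p h
  have hdim : (X.prod X).dim = X.dim + X.dim := dim_prod X X
  apply mem_of_comp
  intro m hm
  apply W.nondeg
  intro c
  refine W.kunneth_induction (p := fun c => W.tr _ (comp W (X.prod X) m γ * c) = 0) ?_ ?_ c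
  · intro a b ha hb
    rw [mul_add, map_add, ha, hb, add_zero]
  · intro i l a ha b hb
    have hab := W.mul_mem (W.map_mem (fst X X) ha) (W.map_mem (snd X X) hb)
    by_cases hd : m + (i + l) = 2 * (X.prod X).dim
    · rw [tr_comp W hd γ hab, W.comm (W.map_mem _ ha) (W.map_mem _ hb), mul_smul_comm, map_smul,
        ← tr_op]
      have h1 := h l i b hb a ha (by omega)
      have h2 := W.tr_rot ha (op W γ b)
      rw [h1] at h2
      have h3 : (-1 : W.K) ^ i ≠ 0 := pow_ne_zero _ (neg_ne_zero.2 one_ne_zero)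
      rw [(mul_eq_zero.1 h2.symm).resolve_left h3, smul_zero]
    · exact W.tr_eq_zero (W.mul_mem (comp_mem W m γ) hab) hd

theorem op3 : S_op3.{u, v, w} := by
  intro k _ 𝒱 ops W Γ _ A X γ g x
  have hdim : (X.prod X).dim = X.dim + X.dim := dim_prod X X
  have key : ∀ a : W.H (X.prod X), W.push (fst X X) (A.act (X.prod X) g a) =
      (A.χ g : W.K) ^ X.dim • A.act X g (W.push (fst X X) a) := by
    intro a
    apply W.tr_ext
    intro c
    obtain ⟨b, rfl⟩ := (A.act X g).surjective c
    rw [W.tr_push, ← A.act_map, ← _root_.map_mul, A.tr_act, smul_mul_assoc, map_smul,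
      ← _root_.map_mul, A.tr_act, ← W.tr_push, hdim, pow_add, smul_eq_mul, mul_assoc]
  rw [op_apply, op_apply, ← A.act_map, ← _root_.map_mul, key]

end Pool.Agent.Y112.KN.Op
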