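import Pool.Agent.H914R2.Weil

/-!
# Powers with the Kunneth formula (job KN-H)
-/

set_option autoImplicit false

open CategoryTheory AlgebraicGeometry

namespace Pool.Agent.Y150.KN

universe u v w

open Pool.Agent.H914

variable {k : Type u} [Field k] {𝒱 : VarClass k} {ops : CycleOps 𝒱}

/-- `P` with the projections `pr i` is a power of `X` as far as `W` is concerned. -/
structure IsPow (W : WeilCohomology.{u, v} ops) (X P : 𝒱.Obj) {m : ℕ}
    (pr : Fin m → (P ⟶ X)) : Prop where
  tr_prod : ∀ a : Fin m → W.H X,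
    W.tr P (List.ofFn fun i => W.map (pr i) (a i)).prod = ∏ i, W.tr X (a i)
  span : Submodule.span W.K
    {x | ∃ a : Fin m → W.H X, x = (List.ofFn fun i => W.map (pr i) (a i)).prod} = ⊤
  exists_map : ∀ (Y : 𝒱.Obj) (f : Fin m → (Y ⟶ X)), ∃ F : Y ⟶ P, ∀ i, F ≫ pr i = f i
  dim : P.dim = m * X.dim

end Pool.Agent.Y150.KN

namespace Pool.Agent.Y112.KN.Pow

universe u v w

open Pool.Agent.H914 Pool.Agent.Y150.KN

variable {k : Type u} [Field k] {𝒱 : VarClass k} {ops : CycleOps 𝒱}

lemma isPow_one (W : WeilCohomology.{u, v} ops) (X : 𝒱.Obj) :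
    IsPow W X X (m := 1) (fun _ => 𝟙 X) where
  tr_prod a := by simp [W.map_id]
  span := by
    rw [eq_top_iff]
    intro x _
    refine Submodule.subset_span ⟨fun _ => x, ?_⟩
    simp [W.map_id]
  exists_map Y f := ⟨f 0, fun i => by
    rw [Category.comp_id, Subsingleton.elim i 0]⟩
  dim := by rw [one_mul]

/-- the projections of the product of `X` and a power of `X` -/
noncomputable def prSucc (X P : 𝒱.Obj) {m : ℕ} (pr : Fin m → (P ⟶ X)) :
    Fin (m + 1) → (X.prod P ⟶ X) :=
  Fin.cons (VarClass.Obj.fst X P) fun i => VarClass.Obj.snd X P ≫ pr i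

lemma prod_prSucc (W : WeilCohomology.{u, v} ops) (X P : 𝒱.Obj) {m : ℕ}
    (pr : Fin m → (P ⟶ X)) (a : Fin (m + 1) → W.H X) :
    (List.ofFn fun i => W.map (prSucc X P pr i) (a i)).prod =
      W.map (VarClass.Obj.fst X P) (a 0) *
        W.map (VarClass.Obj.snd X P) (List.ofFn fun i => W.map (pr i) (a i.succ)).prod := by
  rw [List.ofFn_succ, List.prod_cons]
  congr 1
  rw [map_list_prod, List.map_ofFn]
  congr 1
  congr 1
  funext i
  exact W.map_comp _ _ _

lemma isPow_succ (W : WeilCohomology.{u, v} ops) (X P : 𝒱.Obj) {m : ℕ}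
    (pr : Fin m → (P ⟶ X)) (h : IsPow W X P pr) : IsPow W X (X.prod P) (prSucc X P pr) where
  tr_prod a := by
    rw [prod_prSucc, W.tr_prod, h.tr_prod, Fin.prod_univ_succ]
  span := by
    rw [Submodule.eq_top_iff']
    intro x
    obtain ⟨t, rfl⟩ := (W.kunneth X P).2 x
    induction t using TensorProduct.induction_on with
    | zero => rw [map_zero]; exact Submodule.zero_mem _
    | add s t hs ht => rw [map_add]; exact Submodule.add_mem _ hs ht
    | tmul a b =>
      have hb : b ∈ Submodule.span W.K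
          {x | ∃ a : Fin m → W.H X, x = (List.ofFn fun i => W.map (pr i) (a i)).prod} := by
        rw [h.span]; trivial
      change W.map (VarClass.Obj.fst X P) a * W.map (VarClass.Obj.snd X P) b ∈ _
      induction hb using Submodule.span_induction with
      | mem b hb =>
        obtain ⟨c, rfl⟩ := hb
        refine Submodule.subset_span ⟨Fin.cons a c, ?_⟩
        rw [prod_prSucc]
        rfl
      | zero => rw [map_zero, mul_zero]; exact Submodule.zero_mem _
      | add b c _ _ hb hc => rw [map_add, mul_add]; exact Submodule.add_mem _ hb hc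
      | smul r b _ hb => rw [map_smul, mul_smul_comm]; exact Submodule.smul_mem _ _ hb
  exists_map Y f := by
    obtain ⟨F, hF⟩ := h.exists_map Y fun i => f i.succ
    refine ⟨VarClass.Obj.lift (f 0) F, fun i => ?_⟩
    refine Fin.cases ?_ (fun i => ?_) i
    · exact VarClass.Obj.lift_fst _ _
    · change VarClass.Obj.lift (f 0) F ≫ VarClass.Obj.snd X P ≫ pr i = _
      rw [← Category.assoc, VarClass.Obj.lift_snd, hF]
  dim := by
    rw [VarClass.Obj.dim_prod, h.dim]
    ring

/-- Existence of powers: they do not depend on the Weil cohomology. -/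
theorem exists_isPow (ops : CycleOps 𝒱) (X : 𝒱.Obj) (m : ℕ) :
    ∃ (P : 𝒱.Obj) (pr : Fin (m + 1) → (P ⟶ X)),
      ∀ W : WeilCohomology.{u, v} ops, IsPow W X P pr := by
  induction m with
  | zero => exact ⟨X, fun _ => 𝟙 X, fun W => isPow_one W X⟩
  | succ m ih =>
    obtain ⟨P, pr, h⟩ := ih
    exact ⟨X.prod P, prSucc X P pr, fun W => isPow_succ W X P pr (h W)⟩

/-- Existence of powers, for all theories in all universes. -/
theorem exists_isPow' (X : 𝒱.Obj) (m : ℕ) :
    ∃ (P : 𝒱.Obj) (pr : Fin (m + 1) → (P ⟶ X)),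
      ∀ (ops : CycleOps 𝒱) (W : WeilCohomology.{u, v} ops), IsPow W X P pr := by
  induction m with
  | zero => exact ⟨X, fun _ => 𝟙 X, fun _ W => isPow_one W X⟩
  | succ m ih =>
    obtain ⟨P, pr, h⟩ := ih
    exact ⟨X.prod P, prSucc X P pr, fun ops W => isPow_succ W X P pr (h ops W)⟩

/-- The sign rule: products of anticommuting elements in two orders differ by a sign which depends
only on the two orders. -/
theorem exists_sign {ι : Type w} {L L' : List ι} (h : L.Perm L') :
    ∃ s : ℤ, (s = 1 ∨ s = -1) ∧ ∀ (A : Type v) [Ring A] (y : ι → A),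
      (∀ a b, a ≠ b → y a * y b = -(y b * y a)) → (L.map y).prod = s • (L'.map y).prod := by
  classical
  induction h with
  | nil => exact ⟨1, Or.inl rfl, fun A _ y _ => by rw [one_smul]⟩
  | cons x _ ih =>
    obtain ⟨s, hs, h⟩ := ih
    refine ⟨s, hs, fun A _ y hy => ?_⟩
    rw [List.map_cons, List.map_cons, List.prod_cons, List.prod_cons, h A y hy, mul_smul_comm]
  | swap a b l =>
    by_cases hab : a = b
    · subst hab
      exact ⟨1, Or.inl rfl, fun A _ y _ => by rw [one_smul]⟩
    · refine ⟨-1, Or.inr rfl, fun A _ y hy => ?_⟩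
      simp only [List.map_cons, List.prod_cons]
      rw [← mul_assoc, ← mul_assoc, hy b a (Ne.symm hab), neg_mul, neg_smul, one_smul]
  | trans _ _ ih₁ ih₂ =>
    obtain ⟨s, hs, h⟩ := ih₁
    obtain ⟨t, ht, h'⟩ := ih₂
    refine ⟨s * t, ?_, fun A _ y hy => ?_⟩
    · rcases hs with rfl | rfl <;> rcases ht with rfl | rfl <;> simp
    · rw [h A y hy, h' A y hy, smul_smul]

end Pool.Agent.Y112.KN.Pow
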